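import Mathlib

/-!
Counting in a finite projective plane with a distinguished subplane (MP_06d6b9_co).
-/

set_option autoImplicit false
set_option linter.unusedSectionVars false

open Finset Configuration

namespace Pool.Agent.H300BC

open scoped Classical

universe u v

variable {P : Type u} {L : Type v} [Membership P L]

/-- The points `S` and the lines `T` form a projective plane of order `m` under the incidence of the
ambient plane. -/
structure IsSubplane (m : ℕ) (S : Finset P) (T : Finset L) : Prop where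
  line_mem : ∀ p ∈ S, ∀ p' ∈ S, p ≠ p' → ∀ l : L, p ∈ l → p' ∈ l → l ∈ T
  point_mem : ∀ l ∈ T, ∀ l' ∈ T, l ≠ l' → ∀ p : P, p ∈ l → p ∈ l' → p ∈ S
  card_on_line : ∀ l ∈ T, {p ∈ S | p ∈ l}.card = m + 1
  card_through : ∀ p ∈ S, {l ∈ T | p ∈ l}.card = m + 1
  card_points : S.card = m ^ 2 + m + 1
  card_lines : T.card = m ^ 2 + m + 1

/-- The number of lines of `A` through `p`. -/
noncomputable def cov (A : Finset L) (p : P) : ℕ := {l ∈ A | p ∈ l}.card

variable [Fintype P] [Fintype L] [ProjectivePlane P L]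

lemma uniq {p p' : P} {l l' : L} (h1 : p ∈ l) (h2 : p' ∈ l) (h3 : p ∈ l') (h4 : p' ∈ l')
    (hp : p ≠ p') : l = l' :=
  (Nondegenerate.eq_or_eq h1 h2 h3 h4).resolve_left hp

lemma uniqp {p p' : P} {l l' : L} (h1 : p ∈ l) (h2 : p' ∈ l) (h3 : p ∈ l') (h4 : p' ∈ l')
    (hl : l ≠ l') : p = p' :=
  (Nondegenerate.eq_or_eq h1 h2 h3 h4).resolve_right hl

lemma exists_line (p p' : P) : ∃ l : L, p ∈ l ∧ p' ∈ l := by
  rcases eq_or_ne p p' with rfl | h
  · have h1 : 2 < lineCount L p := ProjectivePlane.two_lt_lineCount L p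
    have h2 : 0 < Nat.card {l : L // p ∈ l} := by
      have : lineCount L p = Nat.card {l : L // p ∈ l} := rfl
      omega
    obtain ⟨⟨l, hl⟩⟩ := (Nat.card_pos_iff.1 h2).1
    exact ⟨l, hl, hl⟩
  · exact ⟨HasLines.mkLine h, (HasLines.mkLine_ax h).1, (HasLines.mkLine_ax h).2⟩

lemma card_line' (l : L) : {p ∈ (univ : Finset P) | p ∈ l}.card = ProjectivePlane.order P L + 1 := by
  rw [← ProjectivePlane.pointCount_eq P l, pointCount, Nat.card_eq_fintype_card,
    Fintype.card_subtype]

lemma card_point' (p : P) :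
    {l ∈ (univ : Finset L) | p ∈ l}.card = ProjectivePlane.order P L + 1 := by
  rw [← ProjectivePlane.lineCount_eq L p, lineCount, Nat.card_eq_fintype_card, Fintype.card_subtype]

lemma card_inter {l l' : L} (h : l ≠ l') : {p ∈ (univ : Finset P) | p ∈ l ∧ p ∈ l'}.card = 1 := by
  rw [card_eq_one]
  refine ⟨HasPoints.mkPoint h, ?_⟩
  have h1 := HasPoints.mkPoint_ax (P := P) h
  ext p
  simp only [mem_filter, mem_univ, true_and, mem_singleton]
  constructor
  · rintro ⟨h2, h3⟩
    exact uniqp h2 h1.1 h3 h1.2 h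
  · rintro rfl
    exact h1

/-- The lines of `A` count with multiplicity `|A|` on a line, and `q` more if the line is in `A`. -/
lemma sum_cov_line (A : Finset L) (l : L) :
    ∑ p ∈ {p ∈ (univ : Finset P) | p ∈ l}, cov A p
      = A.card + if l ∈ A then ProjectivePlane.order P L else 0 := by
  have h1 : ∀ p : P, cov A p = ∑ l' ∈ A, if p ∈ l' then 1 else 0 := by
    intro p
    rw [cov, card_filter]
  simp_rw [h1]
  rw [sum_comm]
  have h2 : ∀ l' ∈ A, (∑ p ∈ {p ∈ (univ : Finset P) | p ∈ l}, if p ∈ l' then 1 else 0)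
      = 1 + if l' = l then ProjectivePlane.order P L else 0 := by
    intro l' _
    rw [← card_filter, filter_filter]
    by_cases h : l' = l
    · subst h
      simp only [and_self, if_true]
      rw [card_line', add_comm]
    · rw [card_inter (Ne.symm h), if_neg h]
  rw [sum_congr rfl h2, sum_add_distrib, sum_ite_eq' A l]
  simp

lemma sum_cov (A : Finset L) :
    ∑ p : P, cov A p = A.card * (ProjectivePlane.order P L + 1) := by
  have h1 : ∀ p : P, cov A p = ∑ l' ∈ A, if p ∈ l' then 1 else 0 := by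
    intro p
    rw [cov, card_filter]
  simp_rw [h1]
  rw [sum_comm]
  have h2 : ∀ l' ∈ A, (∑ p : P, if p ∈ l' then 1 else 0) = ProjectivePlane.order P L + 1 := by
    intro l' _
    rw [← card_filter, card_line']
  rw [sum_congr rfl h2]
  simp

lemma sum_cov_sq (A : Finset L) :
    ∑ p : P, cov A p * cov A p = A.card * (A.card + ProjectivePlane.order P L) := by
  have h1 : ∀ p : P, cov A p * cov A p = ∑ l' ∈ A, if p ∈ l' then cov A p else 0 := by
    intro p
    rw [← sum_filter, sum_const, smul_eq_mul]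
    rfl
  simp_rw [h1]
  rw [sum_comm]
  have h2 : ∀ l' ∈ A, (∑ p : P, if p ∈ l' then cov A p else 0)
      = A.card + ProjectivePlane.order P L := by
    intro l' hl'
    rw [← sum_filter, sum_cov_line, if_pos hl']
  rw [sum_congr rfl h2]
  simp

section Sub

variable {m : ℕ} {S : Finset P} {T : Finset L}

/-- A point outside the subplane lies on exactly one line of the subplane. -/
lemma exists_unique_line (hB : IsSubplane m S T) (hq : ProjectivePlane.order P L = m ^ 2)
    (Q : P) (hQ : Q ∉ S) : ∃ b ∈ T, Q ∈ b ∧ ∀ l ∈ T, Q ∈ l → l = b := by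
  -- each outside point is on at most one line of T; count
  have hle : ∀ Q ∈ Sᶜ, cov T Q ≤ 1 := by
    intro Q hQ
    rw [mem_compl] at hQ
    rw [cov, card_le_one]
    intro l hl l' hl'
    rw [mem_filter] at hl hl'
    by_contra hne
    exact hQ (hB.point_mem l hl.1 l' hl'.1 hne Q hl.2 hl'.2)
  have htot := sum_cov (P := P) T
  have hS : ∑ p ∈ S, cov T p = (m ^ 2 + m + 1) * (m + 1) := by
    rw [← hB.card_points, ← smul_eq_mul, ← sum_const]
    exact sum_congr rfl fun p hp => hB.card_through p hp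
  have hc : ∑ p ∈ Sᶜ, cov T p = Sᶜ.card := by
    have h1 := sum_add_sum_compl S (cov (P := P) T)
    have h2 : Fintype.card P = (m ^ 2) ^ 2 + m ^ 2 + 1 := by
      rw [ProjectivePlane.card_points P L, hq]
    rw [card_compl, h2, hB.card_points]
    rw [htot, hS, hB.card_lines, hq] at h1
    have h3 : (m ^ 2 + m + 1) * (m ^ 2 + 1) = (m ^ 2 + m + 1) * (m + 1)
        + ((m ^ 2) ^ 2 + m ^ 2 + 1 - (m ^ 2 + m + 1)) := by
      have h4 : m ≤ (m ^ 2) ^ 2 := by
        rcases Nat.eq_zero_or_pos m with h | h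
        · subst h; simp
        · calc m = m ^ 1 := (pow_one m).symm
            _ ≤ m ^ 4 := Nat.pow_le_pow_right h (by norm_num)
            _ = (m ^ 2) ^ 2 := by ring
      have h5 : (m ^ 2) ^ 2 + m ^ 2 + 1 = (m ^ 2 + m + 1) + ((m ^ 2) ^ 2 - m) := by omega
      rw [h5, Nat.add_sub_cancel_left]
      zify [h4]
      ring
    omega
  have hone : ∀ Q ∈ Sᶜ, cov T Q = 1 := by
    have : ∑ p ∈ Sᶜ, cov T p = ∑ p ∈ Sᶜ, 1 := by rw [hc]; simp
    exact (sum_eq_sum_iff_of_le hle).1 this
  have h1 := hone Q (mem_compl.2 hQ)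
  rw [cov, card_eq_one] at h1
  obtain ⟨b, hb⟩ := h1
  have hb' : b ∈ {l ∈ T | Q ∈ l} := by rw [hb]; exact mem_singleton_self b
  rw [mem_filter] at hb'
  refine ⟨b, hb'.1, hb'.2, fun l hl hQl => ?_⟩
  have : l ∈ {l ∈ T | Q ∈ l} := mem_filter.2 ⟨hl, hQl⟩
  rw [hb] at this
  exact mem_singleton.1 this

/-- A line which is not in the subplane contains exactly one of its points. -/
lemma exists_unique_point (hB : IsSubplane m S T) (hq : ProjectivePlane.order P L = m ^ 2)
    (hm : 1 ≤ m) (l : L) (hl : l ∉ T) : ∃ R ∈ S, R ∈ l ∧ ∀ p ∈ S, p ∈ l → p = R := by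
  have hle : ∀ p ∈ S, ∀ p' ∈ S, p ∈ l → p' ∈ l → p = p' := by
    intro p hp p' hp' h1 h2
    by_contra hne
    exact hl (hB.line_mem p hp p' hp' hne l h1 h2)
  have hex : ∃ R ∈ S, R ∈ l := by
    by_contra hcon
    push Not at hcon
    have h1 := sum_cov_line (P := P) T l
    rw [if_neg hl, add_zero, hB.card_lines] at h1
    have h2 : ∑ p ∈ {p ∈ (univ : Finset P) | p ∈ l}, cov T p
        ≤ ∑ p ∈ {p ∈ (univ : Finset P) | p ∈ l}, 1 := by
      refine sum_le_sum fun Q hQ => ?_
      rw [mem_filter] at hQ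
      have hQS : Q ∉ S := fun h => hcon Q h hQ.2
      obtain ⟨b, -, -, hb⟩ := exists_unique_line hB hq Q hQS
      rw [cov, card_le_one]
      intro l1 h1 l2 h2
      rw [mem_filter] at h1 h2
      rw [hb l1 h1.1 h1.2, hb l2 h2.1 h2.2]
    rw [h1, sum_const, smul_eq_mul, mul_one, card_line', hq] at h2
    omega
  obtain ⟨R, hR, hRl⟩ := hex
  exact ⟨R, hR, hRl, fun p hp hpl => hle p hp R hR hpl hRl⟩

end Sub

end Pool.Agent.H300BC
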