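import Pool.Agent.H300BC.Main

/-!
Line sets of size `q + m` which cover the complement of a Baer subplane but miss one of its points:
the contradiction.
-/

set_option autoImplicit false
set_option linter.unusedSectionVars false

open Finset Configuration

namespace Pool.Agent.H300BC

open scoped Classical

universe u v

variable {P : Type u} {L : Type v} [Membership P L] [Fintype P] [Fintype L] [ProjectivePlane P L]
variable {m : ℕ} {S : Finset P} {T A : Finset L} {X : P}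

lemma term_out_nonneg (h : Setup m S T A X) {Q : P} (hQ : Q ∈ Sᶜ) :
    0 ≤ ((cov A Q : ℤ) - 1) * (m + 1 - cov A Q) := by
  rw [mem_compl] at hQ
  have h1 := h.cover Q hQ
  have h2 := cov_out_le h hQ
  apply mul_nonneg <;> [skip; skip]
  · have : (1 : ℤ) ≤ cov A Q := by exact_mod_cast h1
    linarith
  · have : (cov A Q : ℤ) ≤ m + 1 := by exact_mod_cast h2
    linarith

lemma term_in_nonneg (h : Setup m S T A X) {R : P} (hR : R ∈ S) :
    0 ≤ (cov A R : ℤ) * (m - cov A R) := by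
  have h2 := cov_le h hR
  apply mul_nonneg (by positivity)
  have : (cov A R : ℤ) ≤ m := by exact_mod_cast h2
  linarith

lemma two_xx_le (h : Setup m S T A X) : 2 * xx T A ≤ m + 1 := by
  have h1 := identity h
  have h2 : 0 ≤ ∑ Q ∈ Sᶜ, ((cov A Q : ℤ) - 1) * (m + 1 - cov A Q) :=
    sum_nonneg fun Q hQ => term_out_nonneg h hQ
  have h3 : 0 ≤ ∑ R ∈ S, (cov A R : ℤ) * (m - cov A R) :=
    sum_nonneg fun R hR => term_in_nonneg h hR
  have h4 : (0 : ℤ) ≤ m ^ 2 + m - 2 * xx T A * m := by linarith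
  have h5 : (0 : ℤ) ≤ m * (m + 1 - 2 * xx T A) := by linarith [h4, show (m : ℤ) * (m + 1 - 2 * xx T A) = m ^ 2 + m - 2 * xx T A * m by ring]
  have hm : (0 : ℤ) < m := by have := h.four; omega
  have h6 := nonneg_of_mul_nonneg_right h5 hm
  omega

/-- A covered point of the subplane is on exactly `m` lines of `A`. -/
lemma cov_eq (h : Setup m S T A X) {R : P} (hR : R ∈ S) : cov A R = 0 ∨ cov A R = m := by
  by_contra hcon
  push Not at hcon
  have hle := cov_le h hR
  have hm := h.four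
  have hlt : cov A R < m := lt_of_le_of_ne hle hcon.2
  have hpos : 0 < cov A R := Nat.pos_of_ne_zero hcon.1
  -- the tangents at `R` outside `A`
  set Tan : Finset L := {l ∈ (univ : Finset L) | (R ∈ l ∧ l ∉ T) ∧ l ∉ A} with hTan
  have hcard : (m - 1) * (m - 1) ≤ Tan.card := by
    have h1 := card_tangents h hR
    have h2 := card_filter_add_card_filter_not
      (s := {l ∈ (univ : Finset L) | R ∈ l ∧ l ∉ T}) (fun l => l ∈ A)
    rw [filter_filter, filter_filter] at h2
    have h3 : {l ∈ (univ : Finset L) | (R ∈ l ∧ l ∉ T) ∧ l ∈ A}.card ≤ cov A R := by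
      rw [cov]
      refine card_le_card fun l hl => ?_
      rw [mem_filter] at hl
      exact mem_filter.2 ⟨hl.2.2, hl.2.1.1⟩
    have h4 : Tan.card + cov A R + m ≥ m ^ 2 := by rw [hTan]; omega
    obtain ⟨k, rfl⟩ : ∃ k, m = k + 1 := ⟨m - 1, by omega⟩
    simp only [Nat.add_sub_cancel]
    nlinarith
  -- on each of them there is a point on `2, …, m` lines
  have hex : ∀ t ∈ Tan, ∃ Q : P, Q ∈ t ∧ Q ≠ R ∧ Q ∉ S ∧ 2 ≤ cov A Q ∧ cov A Q ≤ m := by
    intro t ht
    rw [hTan, mem_filter] at ht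
    obtain ⟨-, ⟨hRt, htT⟩, htA⟩ := ht
    have h1 := sum_rest h hRt
    rw [if_neg htA, add_zero] at h1
    have h2 : ∃ Q ∈ rest t R, 2 ≤ cov A Q := by
      by_contra hno
      push Not at hno
      have h3 : ∑ Q ∈ rest t R, cov A Q ≤ (rest t R).card • 1 :=
        sum_le_card_nsmul _ _ _ fun Q hQ => by have := hno Q hQ; omega
      rw [card_rest h hRt, smul_eq_mul, mul_one] at h3
      omega
    obtain ⟨Q, hQ, hQ2⟩ := h2
    have h3 := sum_le_cov h hRt hR htT htA hQ
    have h4 := rest_out h hRt hR htT hQ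
    rw [rest, mem_erase, mem_filter] at hQ
    exact ⟨Q, hQ.2.2, hQ.1, h4, hQ2, by omega⟩
  haveI : Nonempty P := ⟨X⟩
  choose! f hf using hex
  have hinj : Set.InjOn f (Tan : Set L) := by
    intro t ht t' ht' heq
    rw [mem_coe] at ht ht'
    have h1 := hf t ht
    have h2 := hf t' ht'
    rw [hTan, mem_filter] at ht ht'
    exact uniq h1.1 ht.2.1.1 (heq ▸ h2.1) ht'.2.1.1 h1.2.1
  have hsub : Tan.image f ⊆ Sᶜ := by
    intro Q hQ
    rw [mem_image] at hQ
    obtain ⟨t, ht, rfl⟩ := hQ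
    exact mem_compl.2 (hf t ht).2.2.1
  have h1 := identity h
  have h2 : ∑ Q ∈ Tan.image f, ((cov A Q : ℤ) - 1) * (m + 1 - cov A Q)
      ≤ ∑ Q ∈ Sᶜ, ((cov A Q : ℤ) - 1) * (m + 1 - cov A Q) :=
    sum_le_sum_of_subset_of_nonneg hsub fun Q hQ _ => term_out_nonneg h hQ
  have h3 : (Tan.image f).card • ((m : ℤ) - 1)
      ≤ ∑ Q ∈ Tan.image f, ((cov A Q : ℤ) - 1) * (m + 1 - cov A Q) := by
    refine card_nsmul_le_sum _ _ _ fun Q hQ => ?_
    rw [mem_image] at hQ
    obtain ⟨t, ht, rfl⟩ := hQ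
    obtain ⟨-, -, -, h5, h6⟩ := hf t ht
    have h5' : (2 : ℤ) ≤ cov A (f t) := by exact_mod_cast h5
    have h6' : (cov A (f t) : ℤ) ≤ m := by exact_mod_cast h6
    nlinarith
  rw [card_image_of_injOn hinj, nsmul_eq_mul] at h3
  have h4 : 0 ≤ ∑ R ∈ S, (cov A R : ℤ) * (m - cov A R) :=
    sum_nonneg fun R hR => term_in_nonneg h hR
  have hc : ((m : ℤ) - 1) * (m - 1) ≤ Tan.card := by
    have : (((m - 1) * (m - 1) : ℕ) : ℤ) ≤ (Tan.card : ℤ) := by exact_mod_cast hcard
    rw [Nat.cast_mul, Nat.cast_sub (by omega)] at this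
    simpa using this
  have hm' : (4 : ℤ) ≤ m := by exact_mod_cast hm
  have h7 : ((m : ℤ) - 1) * (m - 1) * (m - 1) ≤ Tan.card * ((m : ℤ) - 1) :=
    mul_le_mul_of_nonneg_right hc (by linarith)
  have h8 : (0 : ℤ) ≤ 2 * xx T A * m := by positivity
  have h9 : ((m : ℤ) - 1) * (m - 1) * (m - 1) ≤ m ^ 2 + m := by linarith
  obtain ⟨k, hk⟩ : ∃ k : ℤ, (m : ℤ) = k + 4 := ⟨m - 4, by ring⟩
  rw [hk] at h9 hm'
  have hk0 : 0 ≤ k := by linarith
  nlinarith [mul_nonneg hk0 hk0, mul_nonneg (mul_nonneg hk0 hk0) hk0]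

/-- the covered points of the subplane -/
noncomputable def CC (S : Finset P) (A : Finset L) : Finset P := {R ∈ S | cov A R ≠ 0}

lemma cov_of_mem_CC (h : Setup m S T A X) {R : P} (hR : R ∈ CC S A) : cov A R = m := by
  rw [CC, mem_filter] at hR
  exact (cov_eq h hR.1).resolve_left hR.2

lemma card_CC (h : Setup m S T A X) : (CC S A).card = m + 1 + xx T A := by
  have h1 := sum_S h
  have h2 : ∑ R ∈ S, cov A R = (CC S A).card * m := by
    rw [CC, ← sum_filter_ne_zero, ← smul_eq_mul, ← sum_const]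
    exact sum_congr rfl fun R hR => cov_of_mem_CC h hR
  rw [h2] at h1
  have hm := h.four
  have h3 : (CC S A).card * m = (m + 1 + xx T A) * m := by rw [h1]; ring
  exact Nat.eq_of_mul_eq_mul_right (by omega) h3

/-- A point outside the subplane on at least two lines of `A` is joined to all covered points. -/
lemma join_mem (h : Setup m S T A X) {Q R : P} (hQ : Q ∉ S) (hQ2 : 2 ≤ cov A Q) (hR : R ∈ CC S A)
    {l : L} (hQl : Q ∈ l) (hRl : R ∈ l) (hl : l ∉ T) : l ∈ A := by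
  by_contra hlA
  have hRS : R ∈ S := (mem_filter.1 hR).1
  have hQR : Q ≠ R := fun h' => hQ (h' ▸ hRS)
  have h1 := sum_le_cov h hRl hRS hl hlA (Q := Q) (by simp [rest, hQR, hQl])
  have h2 := cov_of_mem_CC h hR
  omega

lemma cov_multi (h : Setup m S T A X) {Q : P} (hQ : Q ∉ S) (hQ2 : 2 ≤ cov A Q) {b : L}
    (hbT : b ∈ T) (hQb : Q ∈ b) :
    cov A Q = {R ∈ CC S A | R ∉ b}.card + if b ∈ A then 1 else 0 := by
  obtain ⟨b', hbT', hQb', hb'⟩ := exists_unique_line h.sub h.ord Q hQ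
  have hbb : b = b' := hb' b hbT hQb
  have hb : ∀ l ∈ T, Q ∈ l → l = b := fun l h1 h2 => (hb' l h1 h2).trans hbb.symm
  have h1 := card_filter_add_card_filter_not (s := {l ∈ A | Q ∈ l}) (fun l => l ∈ T)
  rw [filter_filter, filter_filter] at h1
  have h2 : {l ∈ A | Q ∈ l ∧ l ∈ T}.card = if b ∈ A then 1 else 0 := by
    by_cases hbA : b ∈ A
    · rw [if_pos hbA, card_eq_one]
      refine ⟨b, ?_⟩
      ext l
      rw [mem_filter, mem_singleton]
      exact ⟨fun h' => hb l h'.2.2 h'.2.1, fun h' => h' ▸ ⟨hbA, hQb, hbT⟩⟩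
    · rw [if_neg hbA, card_eq_zero, filter_eq_empty_iff]
      rintro l hl ⟨h3, h4⟩
      exact hbA (hb l h4 h3 ▸ hl)
  have h3 : {R ∈ CC S A | R ∉ b}.card = {l ∈ A | Q ∈ l ∧ l ∉ T}.card := by
    choose f hf1 hf2 using fun R : P => exists_line (L := L) Q R
    have hfT : ∀ R, R ∉ b → f R ∉ T := fun R hR h' => hR ((hb (f R) h' (hf1 R)) ▸ hf2 R)
    refine card_bij (fun R _ => f R) ?_ ?_ ?_
    · intro R hR
      rw [mem_filter] at hR
      exact mem_filter.2 ⟨join_mem h hQ hQ2 hR.1 (hf1 R) (hf2 R) (hfT R hR.2), hf1 R, hfT R hR.2⟩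
    · intro R hR R' hR' heq
      rw [mem_filter] at hR hR'
      by_contra hne
      exact hfT R hR.2 (h.sub.line_mem R (mem_filter.1 hR.1).1 R' (mem_filter.1 hR'.1).1 hne (f R)
        (hf2 R) (heq ▸ hf2 R'))
    · intro l hl
      rw [mem_filter] at hl
      obtain ⟨hlA, hQl, hlT⟩ := hl
      obtain ⟨R, hR, hRl, -⟩ := exists_unique_point h.sub h.ord (by have := h.four; omega) l hlT
      have hQR : Q ≠ R := fun h' => hQ (h' ▸ hR)
      have hRb : R ∉ b := fun h' => hlT ((uniq hQl hRl hQb h' hQR) ▸ hbT)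
      have hcR : cov A R ≠ 0 := by
        rw [cov, Ne, card_eq_zero]
        intro h'
        have : l ∈ ({l ∈ A | R ∈ l} : Finset L) := mem_filter.2 ⟨hlA, hRl⟩
        rw [h'] at this
        exact absurd this (notMem_empty l)
      exact ⟨R, mem_filter.2 ⟨mem_filter.2 ⟨hR, hcR⟩, hRb⟩, uniq (hf1 R) (hf2 R) hQl hRl hQR⟩
  have h4 : cov A Q = {l ∈ A | Q ∈ l}.card := rfl
  rw [h4, ← h1, h2, h3, add_comm]

/-- the points outside the subplane on `b` which are on at least two lines of `A` -/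
noncomputable def MM (S : Finset P) (A : Finset L) (b : L) : Finset P :=
  {Q ∈ (univ : Finset P) | (Q ∈ b ∧ Q ∉ S) ∧ 2 ≤ cov A Q}

lemma baer_line (h : Setup m S T A X) {b : L} (hbT : b ∈ T) (hbA : b ∉ A) :
    ((MM S A b).card : ℤ) * (m + xx T A - {R ∈ CC S A | R ∈ b}.card)
      + m * {R ∈ CC S A | R ∈ b}.card = 2 * m := by
  have h1 := sum_split h b
  rw [if_neg hbA, add_zero] at h1
  have h2 : ∑ p ∈ {p ∈ S | p ∈ b}, cov A p = {R ∈ CC S A | R ∈ b}.card * m := by
    rw [← sum_filter_ne_zero, ← smul_eq_mul, ← sum_const]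
    have : filter (fun x => cov A x ≠ 0) {p ∈ S | p ∈ b} = {R ∈ CC S A | R ∈ b} := by
      ext p
      simp only [CC, mem_filter]
      tauto
    rw [this]
    exact sum_congr rfl fun R hR => cov_of_mem_CC h (mem_filter.1 hR).1
  have h3 := card_filter_add_card_filter_not (s := CC S A) (fun R => R ∈ b)
  rw [card_CC h] at h3
  have h4 : ∑ p ∈ {p ∈ (univ : Finset P) | p ∈ b ∧ p ∉ S}, ((cov A p : ℤ) - 1)
      = (MM S A b).card * (m + xx T A - {R ∈ CC S A | R ∈ b}.card) := by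
    rw [← sum_filter_add_sum_filter_not {p ∈ (univ : Finset P) | p ∈ b ∧ p ∉ S}
      (fun p => 2 ≤ cov A p), filter_filter, filter_filter]
    have h5 : ∑ p ∈ {p ∈ (univ : Finset P) | (p ∈ b ∧ p ∉ S) ∧ ¬ 2 ≤ cov A p}, ((cov A p : ℤ) - 1)
        = 0 := by
      refine sum_eq_zero fun p hp => ?_
      rw [mem_filter] at hp
      have := h.cover p hp.2.1.2
      have h6 : cov A p = 1 := by omega
      rw [h6]; simp
    rw [h5, add_zero, ← nsmul_eq_mul, MM, ← sum_const]
    refine sum_congr rfl fun p hp => ?_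
    rw [mem_filter] at hp
    have h6 := cov_multi h hp.2.1.2 hp.2.2 hbT hp.2.1.1
    rw [if_neg hbA, add_zero] at h6
    rw [h6]
    have h7 : (({R ∈ CC S A | R ∈ b}.card : ℤ) + {R ∈ CC S A | R ∉ b}.card) = m + 1 + xx T A := by
      exact_mod_cast h3
    linarith
  rw [sum_sub_distrib, sum_const, nsmul_eq_mul, mul_one] at h4
  have h8 : (({p ∈ (univ : Finset P) | p ∈ b ∧ p ∉ S}.card : ℤ)) + m = m ^ 2 := by
    exact_mod_cast card_out_of_mem h hbT
  have h9 : (({R ∈ CC S A | R ∈ b}.card * m : ℕ) : ℤ)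
      + ∑ p ∈ {p ∈ (univ : Finset P) | p ∈ b ∧ p ∉ S}, (cov A p : ℤ) = m ^ 2 + m := by
    rw [h2] at h1
    exact_mod_cast h1
  push_cast at h9
  linarith

lemma j_le_two (h : Setup m S T A X) {b : L} (hbT : b ∈ T) (hbA : b ∉ A) :
    {R ∈ CC S A | R ∈ b}.card ≤ 2 := by
  have h1 := sum_split h b
  rw [if_neg hbA, add_zero] at h1
  have h2 : ∑ p ∈ {p ∈ S | p ∈ b}, cov A p = {R ∈ CC S A | R ∈ b}.card * m := by
    rw [← sum_filter_ne_zero, ← smul_eq_mul, ← sum_const]
    have : filter (fun x => cov A x ≠ 0) {p ∈ S | p ∈ b} = {R ∈ CC S A | R ∈ b} := by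
      ext p
      simp only [CC, mem_filter]
      tauto
    rw [this]
    exact sum_congr rfl fun R hR => cov_of_mem_CC h (mem_filter.1 hR).1
  have h5 : {p ∈ (univ : Finset P) | p ∈ b ∧ p ∉ S}.card • 1
      ≤ ∑ p ∈ {p ∈ (univ : Finset P) | p ∈ b ∧ p ∉ S}, cov A p :=
    card_nsmul_le_sum _ _ _ fun Q hQ => h.cover Q (mem_filter.1 hQ).2.2
  rw [smul_eq_mul, mul_one] at h5
  have h6 := card_out_of_mem h hbT
  have hm := h.four
  by_contra hcon
  push Not at hcon
  nlinarith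

/-- Counting the covered points by the lines of the subplane through one of its points. -/
lemma sum_j (h : Setup m S T A X) {R : P} (hR : R ∈ S) :
    ∑ b ∈ {b ∈ T | R ∈ b}, {R' ∈ CC S A | R' ∈ b}.card
      = (CC S A).card + if R ∈ CC S A then m else 0 := by
  have h1 : ∀ b : L, {R' ∈ CC S A | R' ∈ b}.card = ∑ R' ∈ CC S A, if R' ∈ b then 1 else 0 := by
    intro b; rw [card_filter]
  simp_rw [h1]
  rw [sum_comm]
  have h2 : ∀ R' ∈ CC S A, (∑ b ∈ {b ∈ T | R ∈ b}, if R' ∈ b then 1 else 0)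
      = 1 + if R' = R then m else 0 := by
    intro R' hR'
    have hR'S : R' ∈ S := (mem_filter.1 hR').1
    rw [← card_filter, filter_filter]
    by_cases hne : R' = R
    · subst hne
      simp only [and_self, if_true]
      rw [h.sub.card_through R' hR, add_comm]
    · rw [if_neg hne, add_zero, card_eq_one]
      obtain ⟨l, hl1, hl2⟩ := exists_line (L := L) R R'
      refine ⟨l, ?_⟩
      ext b
      rw [mem_filter, mem_singleton]
      constructor
      · rintro ⟨-, h3, h4⟩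
        exact uniq h3 h4 hl1 hl2 (Ne.symm hne)
      · rintro rfl
        exact ⟨h.sub.line_mem R hR R' hR'S (Ne.symm hne) b hl1 hl2, hl1, hl2⟩
  rw [sum_congr rfl h2, sum_add_distrib, sum_ite_eq' (CC S A) R]
  simp

end Pool.Agent.H300BC
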