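import Pool.Agent.H300BC.Count

/-!
Line sets of size `q + m + 1`, `m = √q`, which cover the complement of a Baer subplane but miss one of
its points: basic facts.
-/

set_option autoImplicit false
set_option linter.unusedSectionVars false

open Finset Configuration

namespace Pool.Agent.H300BC.One

open scoped Classical

universe u v

variable {P : Type u} {L : Type v} [Membership P L] [Fintype P] [Fintype L] [ProjectivePlane P L]

/-- The standing assumptions: `A` is a set of `m ^ 2 + m + 1` lines, it covers all points outside the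
subplane `(S, T)` of order `m` and misses the point `X` of the subplane. -/
structure Setup1 (m : ℕ) (S : Finset P) (T : Finset L) (A : Finset L) (X : P) : Prop where
  sub : IsSubplane m S T
  ord : ProjectivePlane.order P L = m ^ 2
  four : 4 ≤ m
  card : A.card = m ^ 2 + m + 1
  cover : ∀ Q : P, Q ∉ S → 1 ≤ cov A Q
  memX : X ∈ S
  missX : cov A X = 0

variable {m : ℕ} {S : Finset P} {T A : Finset L} {X : P}

lemma notMem_of_missX (h : Setup1 m S T A X) {l : L} (hl : X ∈ l) : l ∉ A := by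
  intro hlA
  have h1 := h.missX
  rw [cov, card_eq_zero] at h1
  have : l ∈ ({l ∈ A | X ∈ l} : Finset L) := mem_filter.2 ⟨hlA, hl⟩
  rw [h1] at this
  exact absurd this (notMem_empty l)

/-- the points of a line other than `R` -/
noncomputable def rest (t : L) (R : P) : Finset P := {p ∈ (univ : Finset P) | p ∈ t}.erase R

lemma sum_rest (h : Setup1 m S T A X) {t : L} {R : P} (hR : R ∈ t) :
    cov A R + ∑ Q ∈ rest t R, cov A Q = m ^ 2 + m + 1 + if t ∈ A then m ^ 2 else 0 := by
  have h1 := sum_cov_line (P := P) A t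
  rw [h.card, h.ord] at h1
  rw [← h1, rest]
  exact add_sum_erase _ _ (by simp [hR])

lemma card_rest (h : Setup1 m S T A X) {t : L} {R : P} (hR : R ∈ t) :
    (rest t R).card = m ^ 2 := by
  rw [rest, card_erase_of_mem (by simp [hR]), card_line', h.ord]
  simp

lemma rest_out (h : Setup1 m S T A X) {t : L} {R : P} (hR : R ∈ t) (hRS : R ∈ S) (ht : t ∉ T)
    {Q : P} (hQ : Q ∈ rest t R) : Q ∉ S := by
  intro hQS
  rw [rest, mem_erase, mem_filter] at hQ
  exact ht (h.sub.line_mem Q hQS R hRS hQ.1 t hQ.2.2 hR)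

lemma sum_le_cov (h : Setup1 m S T A X) {t : L} {R : P} (hR : R ∈ t) (hRS : R ∈ S) (ht : t ∉ T)
    (htA : t ∉ A) {Q : P} (hQ : Q ∈ rest t R) : cov A Q + cov A R ≤ m + 2 := by
  have h1 := sum_rest h hR
  rw [if_neg htA, add_zero] at h1
  have h2 : cov A Q + ∑ Q' ∈ (rest t R).erase Q, cov A Q' = ∑ Q' ∈ rest t R, cov A Q' :=
    add_sum_erase _ _ hQ
  have h3 : ((rest t R).erase Q).card = m ^ 2 - 1 := by
    rw [card_erase_of_mem hQ, card_rest h hR]
  have h4 : ((rest t R).erase Q).card • 1 ≤ ∑ Q' ∈ (rest t R).erase Q, cov A Q' := by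
    refine card_nsmul_le_sum _ _ _ fun Q' hQ' => ?_
    exact h.cover Q' (rest_out h hR hRS ht (mem_of_mem_erase hQ'))
  rw [h3, smul_eq_mul, mul_one] at h4
  have h5 : 1 ≤ m ^ 2 := Nat.one_le_pow _ _ (by have := h.four; omega)
  omega

lemma cov_le_of_tangent (h : Setup1 m S T A X) {t : L} {R : P} (hR : R ∈ t) (hRS : R ∈ S)
    (ht : t ∉ T) (htA : t ∉ A) : cov A R ≤ m + 1 := by
  have h1 := sum_rest h hR
  rw [if_neg htA, add_zero] at h1
  have h4 : (rest t R).card • 1 ≤ ∑ Q' ∈ rest t R, cov A Q' := by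
    refine card_nsmul_le_sum _ _ _ fun Q' hQ' => ?_
    exact h.cover Q' (rest_out h hR hRS ht hQ')
  rw [card_rest h hR, smul_eq_mul, mul_one] at h4
  omega

/-- the number of tangents at a point of the subplane -/
lemma card_tangents (h : Setup1 m S T A X) {R : P} (hRS : R ∈ S) :
    {l ∈ (univ : Finset L) | R ∈ l ∧ l ∉ T}.card + m = m ^ 2 := by
  have h1 := card_point' (L := L) R
  have h2 := card_filter_add_card_filter_not
    (s := {l ∈ (univ : Finset L) | R ∈ l}) (fun l => l ∈ T)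
  rw [filter_filter, filter_filter, h1, h.ord] at h2
  have h3 : {l ∈ (univ : Finset L) | R ∈ l ∧ l ∈ T} = {l ∈ T | R ∈ l} := by
    ext l; simp [and_comm]
  rw [h3, h.sub.card_through R hRS] at h2
  omega

lemma card_out_of_mem (h : Setup1 m S T A X) {b : L} (hb : b ∈ T) :
    {p ∈ (univ : Finset P) | p ∈ b ∧ p ∉ S}.card + m = m ^ 2 := by
  have h1 := card_line' (P := P) b
  have h2 := card_filter_add_card_filter_not
    (s := {p ∈ (univ : Finset P) | p ∈ b}) (fun p => p ∈ S)
  rw [filter_filter, filter_filter, h1, h.ord] at h2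
  have h3 : {p ∈ (univ : Finset P) | p ∈ b ∧ p ∈ S} = {p ∈ S | p ∈ b} := by
    ext l; simp [and_comm]
  rw [h3, h.sub.card_on_line b hb] at h2
  omega

/-- splitting the sum over a line of the subplane -/
lemma sum_split (h : Setup1 m S T A X) (b : L) :
    ∑ p ∈ {p ∈ S | p ∈ b}, cov A p + ∑ p ∈ {p ∈ (univ : Finset P) | p ∈ b ∧ p ∉ S}, cov A p
      = m ^ 2 + m + 1 + if b ∈ A then m ^ 2 else 0 := by
  have h1 := sum_cov_line (P := P) A b
  rw [h.card, h.ord] at h1
  rw [← h1, ← sum_filter_add_sum_filter_not {p ∈ (univ : Finset P) | p ∈ b} (fun p => p ∈ S),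
    filter_filter, filter_filter]
  congr 2
  ext l; simp [and_comm]

lemma exists_tangent (h : Setup1 m S T A X) {R : P} (hRS : R ∈ S) :
    ∃ t : L, R ∈ t ∧ t ∉ T ∧ t ∉ A := by
  by_contra hcon
  push Not at hcon
  have hm := h.four
  have h1 := card_tangents h hRS
  have h2 : {l ∈ (univ : Finset L) | R ∈ l ∧ l ∉ T}.card ≤ cov A R := by
    rw [cov]
    refine card_le_card fun l hl => ?_
    rw [mem_filter] at hl
    exact mem_filter.2 ⟨hcon l hl.2.1 hl.2.2, hl.2.1⟩
  have hall : ∀ b : L, R ∈ b → b ∈ A := by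
    intro b hRb
    by_cases hb : b ∈ T
    · by_contra hbA
      have h3 := sum_split h b
      rw [if_neg hbA, add_zero] at h3
      have h4 : cov A R ≤ ∑ p ∈ {p ∈ S | p ∈ b}, cov A p :=
        single_le_sum (f := cov A) (fun _ _ => Nat.zero_le _) (mem_filter.2 ⟨hRS, hRb⟩)
      have h5 : {p ∈ (univ : Finset P) | p ∈ b ∧ p ∉ S}.card • 1
          ≤ ∑ p ∈ {p ∈ (univ : Finset P) | p ∈ b ∧ p ∉ S}, cov A p :=
        card_nsmul_le_sum _ _ _ fun Q hQ => h.cover Q (mem_filter.1 hQ).2.2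
      rw [smul_eq_mul, mul_one] at h5
      have h6 := card_out_of_mem h hb
      nlinarith
    · exact hcon b hRb hb
  obtain ⟨l, hl1, hl2⟩ := exists_line (L := L) R X
  exact notMem_of_missX h hl2 (hall l hl1)

lemma cov_le (h : Setup1 m S T A X) {R : P} (hRS : R ∈ S) : cov A R ≤ m + 1 := by
  obtain ⟨t, h1, h2, h3⟩ := exists_tangent h hRS
  exact cov_le_of_tangent h h1 hRS h2 h3

lemma cov_out_le (h : Setup1 m S T A X) {Q : P} (hQ : Q ∉ S) : cov A Q ≤ m + 2 := by
  have hm := h.four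
  obtain ⟨b, hbT, hQb, hb⟩ := exists_unique_line h.sub h.ord Q hQ
  by_contra hcon
  push Not at hcon
  -- every line joining `Q` to a point of `S` off `b` is in `A`
  have hjoin : ∀ R ∈ S, R ∉ b → ∀ l : L, Q ∈ l → R ∈ l → l ∈ A := by
    intro R hR hRb l hQl hRl
    by_contra hlA
    have hlT : l ∉ T := fun h' => hRb ((hb l h' hQl) ▸ hRl)
    have hQR : Q ≠ R := fun h' => hQ (h' ▸ hR)
    have := sum_le_cov h hRl hR hlT hlA (Q := Q) (by simp [rest, hQR, hQl])
    omega
  have hXb : X ∈ b := by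
    by_contra hXb
    obtain ⟨l, h1, h2⟩ := exists_line (L := L) Q X
    exact notMem_of_missX h h2 (hjoin X h.memX hXb l h1 h2)
  have hbA : b ∉ A := notMem_of_missX h hXb
  have h3 := sum_split h b
  rw [if_neg hbA, add_zero] at h3
  have hQmem : Q ∈ {p ∈ (univ : Finset P) | p ∈ b ∧ p ∉ S} := by simp [hQb, hQ]
  have h4 := add_sum_erase {p ∈ (univ : Finset P) | p ∈ b ∧ p ∉ S} (cov A) hQmem
  have h5 : ({p ∈ (univ : Finset P) | p ∈ b ∧ p ∉ S}.erase Q).card • 1
      ≤ ∑ p ∈ {p ∈ (univ : Finset P) | p ∈ b ∧ p ∉ S}.erase Q, cov A p :=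
    card_nsmul_le_sum _ _ _ fun Q hQ => h.cover Q (mem_filter.1 (mem_of_mem_erase hQ)).2.2
  rw [smul_eq_mul, mul_one, card_erase_of_mem hQmem] at h5
  have h6 := card_out_of_mem h hbT
  -- but `Q` is on at least `m ^ 2` lines of `A`
  have h7 : {R ∈ S | R ∉ b}.card ≤ cov A Q := by
    choose f hf1 hf2 using fun R : P => exists_line (L := L) Q R
    rw [cov]
    refine card_le_card_of_injOn f (fun R hR => ?_) ?_
    · rw [mem_coe, mem_filter] at hR
      rw [mem_coe, mem_filter]
      exact ⟨hjoin R hR.1 hR.2 (f R) (hf1 R) (hf2 R), hf1 R⟩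
    · intro R hR R' hR' heq
      rw [mem_coe, mem_filter] at hR hR'
      by_contra hne
      have hT := h.sub.line_mem R hR.1 R' hR'.1 hne (f R) (hf2 R) (heq ▸ hf2 R')
      exact hR.2 ((hb (f R) hT (hf1 R)) ▸ hf2 R)
  have h8 : {R ∈ S | R ∉ b}.card + (m + 1) = m ^ 2 + m + 1 := by
    rw [← h.sub.card_points, ← h.sub.card_on_line b hbT, add_comm]
    exact card_filter_add_card_filter_not (fun R => R ∈ b)
  have h9 : 4 * m ≤ m ^ 2 := by nlinarith
  omega


end Pool.Agent.H300BC.One
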